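import Pool.Agent.P.MP_2a8a61_ag.H.Base

/-!
The product of the discriminant and the associated form is a polynomial map, and its zeros are
exactly the degenerate forms that are not one-nodal.
-/

namespace Pool.Agent.Results.MP_2a8a61_ag.BaseLocus

open MvPolynomial

/-- Exponent vectors of the monomials of degree `d` in `n` variables: they index the
coordinates (the coefficients) on the space of forms of degree `d`. -/
abbrev Mono (n d : ℕ) : Type := {m : Fin n →₀ ℕ // m.degree = d}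

/-- The value at the form `f` of a polynomial in the coefficients of forms of degree `d`. -/
noncomputable def valueAt (n d : ℕ) (f : MvPolynomial (Fin n) ℂ) :
    MvPolynomial (Mono n d) ℂ →+* ℂ :=
  eval fun m : Mono n d => coeff m.1 f

/-- `f` is degenerate: all its first derivatives vanish at some nonzero point. -/
def Degenerate {n : ℕ} (f : MvPolynomial (Fin n) ℂ) : Prop :=
  ∃ z : Fin n → ℂ, z ≠ 0 ∧ ∀ i, eval z (pderiv i f) = 0

/-- `Δ` is the discriminant of forms of degree `d` in `n` variables (up to a nonzero scalar):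
an irreducible polynomial in the coefficients whose zeros are exactly the degenerate forms. -/
def IsDiscriminant (n d : ℕ) (Δ : MvPolynomial (Mono n d) ℂ) : Prop :=
  Irreducible Δ ∧
    ∀ f : MvPolynomial (Fin n) ℂ, f.IsHomogeneous d → (valueAt n d f Δ = 0 ↔ Degenerate f)

/-- The Hessian determinant of `f`. -/
noncomputable def hess {n : ℕ} (f : MvPolynomial (Fin n) ℂ) : MvPolynomial (Fin n) ℂ :=
  (Matrix.of fun i j => pderiv i (pderiv j f)).det

/-- `c` is the value at `w` of the associated form of `f`: in the Milnor algebra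
`ℂ[[z]] / (f_{z_1}, …, f_{z_n})` one has `(w_1 z_1 + ⋯ + w_n z_n) ^ (n (d - 2)) = c Hess f`. -/
def IsAssocValue (n d : ℕ) (f : MvPolynomial (Fin n) ℂ) (w : Fin n → ℂ) (c : ℂ) : Prop :=
  (((∑ i, C (w i) * X i) ^ (n * (d - 2)) - C c * hess f : MvPolynomial (Fin n) ℂ) :
      MvPowerSeries (Fin n) ℂ) ∈
    Ideal.span (Set.range fun i =>
      ((pderiv i f : MvPolynomial (Fin n) ℂ) : MvPowerSeries (Fin n) ℂ))

/-- `Ψ` extends `Δ Φ` to a morphism on the whole space of forms: it is a form of degree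
`n (d - 2)` whose coefficients are polynomials in the coefficients of `f`, and it agrees with
`Δ Φ` at every form `f` of degree `d` with `Δ f ≠ 0`. -/
def IsExtension (n d : ℕ) (Δ : MvPolynomial (Mono n d) ℂ)
    (Ψ : MvPolynomial (Fin n) (MvPolynomial (Mono n d) ℂ)) : Prop :=
  Ψ.IsHomogeneous (n * (d - 2)) ∧
    ∀ f : MvPolynomial (Fin n) ℂ, f.IsHomogeneous d → valueAt n d f Δ ≠ 0 →
      ∀ (w : Fin n → ℂ) (c : ℂ), IsAssocValue n d f w c →
        eval w (map (valueAt n d f) Ψ) = valueAt n d f Δ * c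

/-- The point `[a]` is the only singular point of the projective hypersurface `f = 0`, and it
is an ordinary double point: the Hessian matrix of `f` at `a` has rank `n - 1`. -/
def OneNode {n : ℕ} (f : MvPolynomial (Fin n) ℂ) (a : Fin n → ℂ) : Prop :=
  a ≠ 0 ∧ (∀ i, eval a (pderiv i f) = 0) ∧
    (∀ b : Fin n → ℂ, (∀ i, eval b (pderiv i f) = 0) → ∃ c : ℂ, b = c • a) ∧
    (Matrix.of fun i j => eval a (pderiv i (pderiv j f))).rank = n - 1

open Pool.Agent.P.MP_2a8a61_ag Pool.Agent.P.MP_2a8a61_ag.H in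
theorem result (n d : ℕ) (hn : 2 ≤ n) (hd : 3 ≤ d) :
    (∃ Δ, IsDiscriminant n d Δ) ∧
    ∀ Δ, IsDiscriminant n d Δ →
      (∀ f : MvPolynomial (Fin n) ℂ, f.IsHomogeneous d → valueAt n d f Δ ≠ 0 →
        ∀ w : Fin n → ℂ, ∃! c : ℂ, IsAssocValue n d f w c) ∧
      (∃! Ψ, IsExtension n d Δ Ψ) ∧
      ∀ Ψ, IsExtension n d Δ Ψ → ∀ f : MvPolynomial (Fin n) ℂ, f.IsHomogeneous d →
        (map (valueAt n d f) Ψ = 0 ↔ Degenerate f ∧ ¬ ∃ a, OneNode f a) ∧
        ∀ a, OneNode f a → ∃ c : ℂ, c ≠ 0 ∧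
          map (valueAt n d f) Ψ = C c * (∑ i, C (a i) * X i) ^ (n * (d - 2)) := by
  have : Nonempty (Fin n) := ⟨⟨0, by omega⟩⟩
  have hd2 : 2 ≤ d := by omega
  refine ⟨exists_discriminant (ι := Fin n) hd2, fun Δ hΔ => ?_⟩
  have hvan : ∀ i : Fin n, VanAt d i Δ := fun i f hf z hz hs =>
    (hΔ.2 f hf).2 ⟨z, fun h => hz (by rw [h]; rfl), hs⟩
  have hiff : ∀ f : MvPolynomial (Fin n) ℂ, f.IsHomogeneous d → ∀ (w : Fin n → ℂ) (c : ℂ),
      IsAssocValue n d f w c ↔
        (∑ i, C (w i) * X i) ^ (Fintype.card (Fin n) * (d - 2)) - C c * (HM f).det ∈ Jac f := by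
    intro f hf w c
    rw [← coe_mem_span_iff hf (congr_isHomogeneous hf w c), IsAssocValue, hess, det_hessian_eq,
      Fintype.card_fin]
  have hnode : ∀ f : MvPolynomial (Fin n) ℂ, f.IsHomogeneous d → ∀ a, OneNode f a ↔ Node f a := by
    intro f hf a
    constructor
    · rintro ⟨h1, h2, h3, h4⟩
      refine ⟨h1, h2, h3, (finrank_ker_eq_one_iff h1 (HA_mulVec_self hf h2)).2 ?_⟩
      rw [Fintype.card_fin, HA, h4]
      omega
    · intro h
      have := (finrank_ker_eq_one_iff h.ne (HA_mulVec_self hf h.sing)).1 h.ker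
      rw [Fintype.card_fin, HA] at this
      exact ⟨h.ne, h.sing, h.uniq, by omega⟩
  have hex : ∀ f : MvPolynomial (Fin n) ℂ, f.IsHomogeneous d → valueAt n d f Δ ≠ 0 →
      ∀ w : Fin n → ℂ, ∃! c : ℂ, IsAssocValue n d f w c := fun f hf h0 w => by
    simpa only [hiff f hf w] using (main_extension hd2 hvan).1 f hf h0 w
  have hp : Prime Δ := hΔ.1.prime
  obtain ⟨v, hv⟩ := exists_good_univ hd2 hvan
  have h0 : IsExtension n d Δ (psi (Fintype.card (Fin n) * (d - 2)) v) := by
    refine ⟨by simpa using psi_isHomogeneous _ v, fun f hf _ w c hc => ?_⟩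
    have hg := hv.spec (evAt d f) (map_evAt_UF hf)
    have h1 := hg.killJ hd2 hf ((hiff f hf w c).1 hc)
    rw [map_sub, Nf_C_mul, hg.n3, sub_eq_zero, mul_comm c, ← eval_psi, ← map_psi] at h1
    exact h1
  have huniq : ∀ Ψ, IsExtension n d Δ Ψ → Ψ = psi (Fintype.card (Fin n) * (d - 2)) v := by
    intro Ψ hΨ
    have h1 : C Δ * (Ψ - psi (Fintype.card (Fin n) * (d - 2)) v) = 0 := by
      refine eq_zero_of_forall_eval₂ _ fun x w => ?_
      have hf : (map (eval x) (UF (Fin n) d)).IsHomogeneous d := (UF_isHomogeneous d).map _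
      have e : valueAt n d (map (eval x) (UF (Fin n) d)) = eval x := by
        rw [valueAt]
        congr 1
        funext m
        rw [coeff_map, coeff_UF, eval_X]
      rw [← e, map_mul, eval₂Hom_C]
      by_cases h2 : valueAt n d (map (eval x) (UF (Fin n) d)) Δ = 0
      · rw [h2, zero_mul]
      · obtain ⟨c, hc, -⟩ := hex _ hf h2 w
        rw [map_sub, coe_eval₂Hom, ← eval_map, ← eval_map, hΨ.2 _ hf h2 w c hc,
          h0.2 _ hf h2 w c hc, sub_self, mul_zero]
    exact sub_eq_zero.1 ((mul_eq_zero.1 h1).resolve_left (C_ne_zero.2 hp.ne_zero))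
  refine ⟨hex, ⟨_, h0, huniq⟩, fun Ψ hΨ f hf => ?_⟩
  have e : map (valueAt n d f) Ψ =
      psi (Fintype.card (Fin n) * (d - 2)) fun m => evAt d f (v m) := by
    rw [huniq Ψ hΨ, map_psi]
    rfl
  have h2 : ∀ a, OneNode f a → ∃ c : ℂ, c ≠ 0 ∧
      map (valueAt n d f) Ψ = C c * (∑ i, C (a i) * X i) ^ (n * (d - 2)) := fun a ha => by
    simpa only [e, Fintype.card_fin] using ((hnode f hf a).1 ha).psi_eq hd hp hv hf
  refine ⟨⟨fun h => ⟨?_, ?_⟩, ?_⟩, h2⟩
  · by_contra hcon
    exact psi_ne_zero (hv.spec (evAt d f) (map_evAt_UF hf))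
      (fun h' => hcon ((hΔ.2 f hf).1 h')) (e ▸ h)
  · rintro ⟨a, ha⟩
    obtain ⟨c, hc, h3⟩ := h2 a ha
    obtain ⟨i, hi⟩ := Function.ne_iff.1 ha.1
    have h4 := congrArg (eval (Pi.single i 1)) h3
    rw [h, map_zero, map_mul, eval_C, map_pow] at h4
    refine mul_ne_zero hc (pow_ne_zero _ ?_) h4.symm
    simpa [Pi.single_apply] using hi
  · rintro ⟨⟨a, ha0, ha⟩, h3⟩
    by_contra hcon
    exact h3 ⟨a, (hnode f hf a).2 (node_of_ne_zero hd hp.ne_zero hv hf ha0 ha (e ▸ hcon))⟩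

end Pool.Agent.Results.MP_2a8a61_ag.BaseLocus
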