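import Pool.Agent.P.MP_2a8a61_ag.H.Pen

/-!
The order of the pole of the associated form along a pencil through a form with isolated
singularities is the largest nilpotency exponent of the local equation in its Milnor algebras.
-/

namespace Pool.Agent.Results.MP_2a8a61_ag.PoleOrder

open MvPolynomial Topology

/-- `a` is a nonzero point at which all first derivatives of `f` vanish. -/
def Singular {n : ℕ} (f : MvPolynomial (Fin n) ℂ) (a : Fin n → ℂ) : Prop :=
  a ≠ 0 ∧ ∀ i, eval a (pderiv i f) = 0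

/-- The Hessian determinant of `f`. -/
noncomputable def hess {n : ℕ} (f : MvPolynomial (Fin n) ℂ) : MvPolynomial (Fin n) ℂ :=
  (Matrix.of fun i j => pderiv i (pderiv j f)).det

/-- `c` is the value at `w` of the associated form of `f`: in the Milnor algebra
`ℂ[[z]] / (f_{z_1}, …, f_{z_n})` one has `(w_1 z_1 + ⋯ + w_n z_n) ^ (n (d - 2)) = c Hess f`. -/
def IsAssocValue (n d : ℕ) (f : MvPolynomial (Fin n) ℂ) (w : Fin n → ℂ) (c : ℂ) : Prop :=
  (((∑ i, C (w i) * X i) ^ (n * (d - 2)) - C c * hess f : MvPolynomial (Fin n) ℂ) :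
      MvPowerSeries (Fin n) ℂ) ∈
    Ideal.span (Set.range fun i =>
      ((pderiv i f : MvPolynomial (Fin n) ℂ) : MvPowerSeries (Fin n) ℂ))

/-- The map `t ↦ Φ (f + t g)` has a pole of order at most `k` at `t = 0`: for each `w` the
function `t ^ k Φ (f + t g) (w)` is bounded on a punctured neighbourhood of `0`. -/
def PoleAtMost (n d : ℕ) (f g : MvPolynomial (Fin n) ℂ) (k : ℕ) : Prop :=
  ∀ w : Fin n → ℂ, ∃ B : ℝ, ∀ᶠ t in 𝓝[≠] (0 : ℂ), ∀ c : ℂ,
    IsAssocValue n d (f + C t * g) w c → ‖t ^ k * c‖ ≤ B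

/-- In the local ring of `ℂ[z]` at `a`, the power `f ^ k` lies in the ideal generated by the
numerators `g f_{z_i} - f g_{z_i}` of the first derivatives of `f / g`. -/
def PowMemJacobian {n : ℕ} (f g : MvPolynomial (Fin n) ℂ) (k : ℕ) (a : Fin n → ℂ) : Prop :=
  ∃ u : MvPolynomial (Fin n) ℂ, eval a u ≠ 0 ∧
    u * f ^ k ∈ Ideal.span (Set.range fun i => g * pderiv i f - f * pderiv i g)

open Pool.Agent.P.MP_2a8a61_ag Pool.Agent.P.MP_2a8a61_ag.H in
theorem result (n d : ℕ) (hn : 2 ≤ n) (hd : 3 ≤ d) (f g : MvPolynomial (Fin n) ℂ)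
    (hf : f.IsHomogeneous d) (hg : g.IsHomogeneous d)
    (hfg : ∀ a, Singular f a → eval a g ≠ 0) :
    (∀ᶠ t in 𝓝[≠] (0 : ℂ), (¬ ∃ z, Singular (f + C t * g) z) ∧
      ∀ w : Fin n → ℂ, ∃! c : ℂ, IsAssocValue n d (f + C t * g) w c) ∧
    (∃ k, ∀ a, Singular f a → PowMemJacobian f g k a) ∧
    ∀ k, PoleAtMost n d f g k ↔ ∀ a, Singular f a → PowMemJacobian f g k a := by
  have : Nonempty (Fin n) := ⟨⟨0, by omega⟩⟩
  have hd2 : 2 ≤ d := by omega
  have hfg' : ∀ a : Fin n → ℂ, a ≠ 0 → (∀ j, eval a (pderiv j f) = 0) → eval a g ≠ 0 :=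
    fun a h1 h2 => hfg a ⟨h1, h2⟩
  have hiff : ∀ (t : ℂ) (w : Fin n → ℂ) (c : ℂ), IsAssocValue n d (f + C t * g) w c ↔
      (∑ i, C (w i) * X i) ^ (Fintype.card (Fin n) * (d - 2)) -
        C c * (HM (f + C t * g)).det ∈ Jac (f + C t * g) := by
    intro t w c
    have hft : (f + C t * g).IsHomogeneous d := hf.add (hg.C_mul t)
    rw [← coe_mem_span_iff hft (congr_isHomogeneous hft w c), IsAssocValue, hess, det_hessian_eq,
      Fintype.card_fin]
  obtain ⟨h1, h2⟩ := pencil hd2 hf hg hfg'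
  obtain ⟨k, hk⟩ := exists_exponent (by omega) hf hg hfg'
  refine ⟨?_, ⟨k, fun a ha => hk a ha.1 ha.2⟩, fun k => ?_⟩
  · simpa only [hiff, Singular] using h1
  · have e : PoleAtMost n d f g k ↔ Bdd (pen f g) (Fintype.card (Fin n) * (d - 2)) k := by
      simp only [PoleAtMost, Bdd, hiff, map_pen]
    rw [e, h2]
    exact ⟨fun h a ha => h a ha.1 ha.2, fun h a h3 h4 => h a ⟨h3, h4⟩⟩

end Pool.Agent.Results.MP_2a8a61_ag.PoleOrder
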